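import Pool.Agent.Helper43.RT.Defs
import Pool.Agent.Helper43.RR.ShS
import Pool.Agent.Helper43.RR.ShU

/-!
The spin representations with places of bad reduction.
-/

set_option linter.unusedSimpArgs false
set_option linter.unusedSectionVars false
set_option linter.unusedVariables false

open Module MTPairs MTP TRSpin

namespace AV

open AV.SHS

namespace RTS

variable {K : Type*} [Field K]

lemma conj_self {l : Type*} [Fintype l] [DecidableEq l]
    {G : Subgroup (Matrix.GeneralLinearGroup l K)} {P : Matrix l l K} : IsConj ⊥ G P P :=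
  ⟨1, Subgroup.one_mem _, 1, Subgroup.one_mem _, fun v => by
    rw [Equiv.Perm.one_apply, Equiv.Perm.one_apply, Units.val_one, Matrix.one_mulVec,
      Matrix.one_mulVec]⟩

/-- The element `1 + x w`. -/
lemma bad_bot {m : Type*} [Fintype m] [DecidableEq m]
    {G : Subgroup (Matrix.GeneralLinearGroup (m ⊕ m) K)} {x y w : Matrix m m K}
    (x2 : x * x = 0) (xy : x * y + y * x = 1) (hwx : w * x + x * w = 0)
    (hG : ∀ u : Matrix.GeneralLinearGroup (m ⊕ m) K,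
      (u : Matrix (m ⊕ m) (m ⊕ m) K) = 1 + bl K m (x * w) → u ∈ G)
    {W : Submodule K (m ⊕ m → K)} {r : ℕ}
    (hr : finrank K (W.map (bl K m (x * w)).mulVecLin) = r) :
    BadAt ⊥ G (bl K m (x * y)) W r := by
  intro γ hγ E
  have hz : x * w * (x * w) = 0 := eich_sq x2 hwx
  have hz2 : bl K m (x * w) * bl K m (x * w) = 0 := by rw [← map_mul, hz, map_zero]
  obtain ⟨u, hu⟩ : ∃ u : Matrix.GeneralLinearGroup (m ⊕ m) K,
      (u : Matrix (m ⊕ m) (m ⊕ m) K) = 1 + bl K m (x * w) :=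
    ⟨⟨1 + bl K m (x * w), 1 - bl K m (x * w), one_add_mul hz2, one_sub_mul hz2⟩, rfl⟩
  have hu' : (u : Matrix (m ⊕ m) (m ⊕ m) K) - 1 = bl K m (x * w) := by
    rw [hu, add_sub_cancel_left]
  rw [Subgroup.mem_bot] at hγ
  subst hγ
  refine ⟨1, Subgroup.one_mem _, fun v _ => rfl, u, hG u hu, _, conj_self, ?_, ?_,
    fun v => rfl, ?_⟩
  · rw [hu', ← map_mul, xyxw x2 xy]
  · have e1 : x * w * (x * y) = 0 := by
      have ewx : w * x = -(x * w) := eq_neg_of_add_eq_zero_left hwx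
      rw [mul_assoc, ← mul_assoc w, ewx, neg_mul, mul_neg, mul_assoc, ← mul_assoc, x2,
        zero_mul, neg_zero]
    rw [hu', ← map_mul, e1, map_zero]
  · intro θ hθ U hU
    rw [Subgroup.mem_bot] at hθ
    subst hθ
    have : W = U := Submodule.ext hU
    subst this
    rw [hu', hr]

section sd
variable [CharZero K]

/-- The example. -/
theorem ex4_dat [IsAlgClosed K] {m : Type} [Fintype m] [DecidableEq m] [Nonempty m]
    {V : Submodule K (Matrix m m K)} {x y : Matrix m m K} (D : Dat V x y) {J N w : Matrix m m K}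
    (hJ : J.det ≠ 0) {s : ℤ} (hs : J.transpose = (s : K) • J) {e : K} (he : e * e = 1)
    (hv : ∀ v ∈ V, v.transpose * J = e • (J * v))
    (h1 : N * N = 0) (h2 : x * y * N = N) (h3 : N * (x * y) = 0)
    (h4 : N.transpose * J + J * N = 0) (h5 : N ∉ V * V) {d : ℕ} (hd : Fintype.card m = d)
    (hw : w ∈ V) (hwx : w * x + x * w = 0) (hwy : w * y + y * w = 0) (hww : w * w = 1)
    {z : Matrix m m K} (hz : z ∈ V) (hzx : z * x + x * z = 0) (hzy : z * y + y * z = 0) {r : ℕ}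
    (hr : (x * z).rank = r) : HasEx4 K d s r := by
  refine ⟨m ⊕ m, inferInstance, inferInstance, J2 J, GG V x y, bl K m x * bl K m y,
    ?_, D.red, ?_, fun W hW => ⟨by rw [D.fr hW, hd], RRS.sign_sd D hJ hs hW, ?_⟩,
    D.not_contains h1 h2 h3 h4 h5⟩
  · refine strong_of_orbit_self (J2_t J) (J2_det hJ) _ _ (fun P hP => ?_) D.EN_le
    refine hyp_lag he ?_ (D.hyp hP)
    rintro _ ⟨v, hv', rfl⟩
    exact J2_vec he (hv v hv')
  · obtain ⟨g, hg, hgp⟩ := RRS.so_mem (V := V2 V) (x := bl K m x) (y := bl K m y) (w := bl K m w)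
      (mem_V2 hw) (by rw [← map_mul, D.x2, map_zero]) (by rw [← map_mul, D.y2, map_zero])
      (by rw [← map_mul, ← map_mul, ← map_add, D.xy, map_one])
      (by rw [← map_mul, ← map_mul, ← map_add, hwx, map_zero])
      (by rw [← map_mul, ← map_mul, ← map_add, hwy, map_zero])
      (by rw [← map_mul, hww, map_one])
    exact ⟨g, D.EN_le hg, hgp⟩
  · have hG : ∀ u : Matrix.GeneralLinearGroup (m ⊕ m) K,
        (u : Matrix (m ⊕ m) (m ⊕ m) K) = 1 + bl K m (x * z) → u ∈ GG V x y := fun u hu =>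
      D.EN_le (Subgroup.subset_closure ⟨bl K m z, mem_V2 hz,
        by rw [← map_mul, ← map_mul, ← map_add, hzx, map_zero],
        by rw [← map_mul, ← map_mul, ← map_add, hzy, map_zero],
        Or.inl (by rw [hu, map_mul])⟩)
    rw [← map_mul]
    refine bad_bot D.x2 D.xy hzx hG ?_
    rw [D.rk hW, hr]
    have hq : x * z * (x * z) = 0 := eich_sq D.x2 hzx
    have hq2 : bl K m (x * z) * bl K m (x * z) = 0 := by rw [← map_mul, hq, map_zero]
    let u : Matrix.GeneralLinearGroup (m ⊕ m) K :=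
      ⟨1 + bl K m (x * z), 1 - bl K m (x * z), one_add_mul hq2, one_sub_mul hq2⟩
    have hu : (u : Matrix (m ⊕ m) (m ⊕ m) K) = 1 + bl K m (x * z) := rfl
    intro v hv
    have h6 := W.sub_mem (hW.sub u (hG u hu) v hv) hv
    rw [hu, Matrix.add_mulVec, Matrix.one_mulVec, add_sub_cancel_left] at h6
    exact h6

end sd

/-- Vectors with prescribed rank. -/
lemma exists_z [CharZero K] {k r : ℕ} (hr : r = 0 ∨ r = 2 ^ k ∨ r = 2 ^ (k + 1)) :
    ∃ z ∈ VS K (k + 2), z * x0 K k + x0 K k * z = 0 ∧ z * y0 K k + y0 K k * z = 0 ∧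
      (x0 K k * z).rank = r := by
  rcases hr with rfl | rfl | rfl
  · exact ⟨0, Submodule.zero_mem _, by simp, by simp, by simp⟩
  · exact ⟨_, jw_mem 1 mem_cm, jw_orth one_ne mem_cm mem_cm, jw_orth one_ne mem_cm mem_am,
      rank_xz⟩
  · exact ⟨g0 K (k + 2), g0_mem, g0_orth 0 mem_cm, g0_orth 0 mem_am, rank_xg⟩

/-- The spin representation with the sign of its form. -/
theorem ex4_spin (K : Type*) [Field K] [IsAlgClosed K] [CharZero K] {n : ℕ} (hn : 3 ≤ n)
    {s : ℤ} (hs : (JS K n).transpose = (s : K) • JS K n) {r : ℕ}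
    (hr : r = 0 ∨ r = 2 ^ (n - 2) ∨ r = 2 ^ (n - 1)) : HasEx4 K (2 ^ n) s r := by
  obtain ⟨k, rfl⟩ : ∃ k, n = k + 2 := ⟨n - 2, by omega⟩
  obtain ⟨N, h1, h2, h3, h4, h5⟩ := exists_N (K := K) (k := k) (by omega)
  have hee : (-1 : K) ^ (k + 2) * (-1 : K) ^ (k + 2) = 1 := by
    rw [← mul_pow]; simp
  obtain ⟨z, hz, hzx, hzy, hzr⟩ := exists_z (K := K) (k := k) (r := r) (by simpa using hr)
  exact ex4_dat (dat (K := K) (k := k)) JS_det' hs hee JS_VS h1 h2 h3 h4 h5 (by simp)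
    g0_mem (g0_orth 0 mem_cm) (g0_orth 0 mem_am) g0_sq hz hzx hzy hzr

end RTS

theorem ex4_S (K : Type*) [Field K] [IsAlgClosed K] [CharZero K] {n : ℕ} (hn : 5 ≤ n)
    (h : n % 4 = 1 ∨ n % 4 = 2) {r : ℕ} (hr : r = 0 ∨ r = 2 ^ (n - 2) ∨ r = 2 ^ (n - 1)) :
    HasEx4 K (2 ^ n) (-1) r := by
  apply RTS.ex4_spin K (by omega) _ hr
  rw [JS_t h]
  simp

theorem ex4_O (K : Type*) [Field K] [IsAlgClosed K] [CharZero K] {n : ℕ} (hn : 3 ≤ n)
    (h : n % 4 = 0 ∨ n % 4 = 3) {r : ℕ} (hr : r = 0 ∨ r = 2 ^ (n - 2) ∨ r = 2 ^ (n - 1)) :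
    HasEx4 K (2 ^ n) 1 r := by
  apply RTS.ex4_spin K hn _ hr
  rw [RRS.JS_t0 h]
  simp

namespace RTU

open RRU

lemma rk_i {K : Type*} [Field K] [CharZero K] {m : Type*} [Fintype m] [DecidableEq m]
    (I : (m → K) →ₗ[K] (m ⊕ m → K)) (hI : Function.Injective I) {A : Matrix m m K}
    (h : ∀ v, (bl K m A).mulVec (I v) = I (A.mulVec v)) :
    finrank K ((LinearMap.range I).map (bl K m A).mulVecLin) = A.rank := by
  have e : (LinearMap.range I).map (bl K m A).mulVecLin = (LinearMap.range A.mulVecLin).map I := by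
    ext u
    constructor
    · rintro ⟨_, ⟨v, rfl⟩, rfl⟩
      exact ⟨_, ⟨v, rfl⟩, (h v).symm⟩
    · rintro ⟨_, ⟨v, rfl⟩, rfl⟩
      exact ⟨_, ⟨v, rfl⟩, h v⟩
  rw [e, SHS.fr_of_inj I fun v _ hv => hI (by rw [hv, map_zero])]
  rfl

theorem ex4_du {K : Type*} [Field K] [IsAlgClosed K] [CharZero K] {m : Type} [Fintype m]
    [DecidableEq m] [Nonempty m] {V : Submodule K (Matrix m m K)} {x y g : Matrix m m K}
    (D : Du V x y g) (hp : PG V x y g) {J N : Matrix m m K} (hJ : J.det ≠ 0) {s : K}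
    (hs : J.transpose = s • J) (hss : s * s = 1) (hv : ∀ v ∈ V, v.transpose * J = J * v)
    (h1 : N * N = 0) (h2 : x * y * N = N) (h3 : N * (x * y) = 0)
    (h4 : N.transpose * J + J * N = 0) {φ : Matrix m m K →ₗ[K] K}
    (hφ : ∀ v ∈ V, ∀ w ∈ V, ∀ a b : K, φ ((v + a • 1) * (w - b • 1)) = 0) (h5 : φ N ≠ 0)
    {d : ℕ} (hd : Fintype.card m = d) {z : Matrix m m K} (hz : z ∈ V)
    (hzx : z * x + x * z = 0) (hzy : z * y + y * z = 0) {r : ℕ} (hr : (x * z).rank = r) :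
    HasEx4 K d 0 r := by
  refine ⟨m ⊕ m, inferInstance, inferInstance, J2 J, GD V x y, o1 x * o1 y, ?_, red D hp, ?_,
    fun W hW => ⟨by rw [finrank_W D hp hW, hd], sign_zero D hp hJ hs hss hv hW, ?_⟩,
    not_contains D.D h1 h2 h3 h4 hφ h5⟩
  · exact strong_of_orbit_self (J2_t J) (J2_det hJ) _ _
      (fun P hP => lag_OH D.D hs hss hv hP) (EN_le D.D)
  · obtain ⟨h, hh, hhp⟩ := RRS.so_mem (o1_mem D.hg) (x2' D.D) (y2' D.D) (xy' D.D)
      (o1_orth D.gx) (o1_orth D.gy) (by rw [o1_mul, D.gg, map_one])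
    exact ⟨h, EN_le D.D hh, hhp⟩
  · have hG : ∀ u : Matrix.GeneralLinearGroup (m ⊕ m) K,
        (u : Matrix (m ⊕ m) (m ⊕ m) K) = 1 + bl K m (x * z) → u ∈ GD V x y := fun u hu =>
      EN_le D.D (Subgroup.subset_closure ⟨o1 z, o1_mem hz, o1_orth hzx, o1_orth hzy,
        Or.inl (by rw [hu, o1_mul])⟩)
    rw [o1_mul]
    refine RTS.bad_bot D.D.x2 D.D.xy hzx hG ?_
    rw [← hr]
    rcases irr_cases D hp hW with h | h
    · rw [h, ← UN.W.range_i1]
      exact rk_i _ UN.W.i1_inj (fun v => by rw [bl_apply, UN.W.blk_i1])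
    · rw [h, ← UN.W.range_i2]
      exact rk_i _ UN.W.i2_inj (fun v => by rw [bl_apply, UN.W.blk_i2])

end RTU

theorem ex4_U (K : Type*) [Field K] [IsAlgClosed K] [CharZero K] {n : ℕ} (hn : 4 ≤ n)
    (h : Even n) {r : ℕ} (hr : r = 0 ∨ r = 2 ^ (n - 2) ∨ r = 2 ^ (n - 1)) :
    HasEx4 K (2 ^ n) 0 r := by
  obtain ⟨k, rfl⟩ : ∃ k, n = k + 2 := ⟨n - 2, by omega⟩
  have hk : Even k := by
    rw [Nat.even_iff] at h ⊢
    omega
  obtain ⟨N, h1, h2, h3, h4, h5⟩ := RRU.triple (K := K) (k := k) (by omega) hk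
  obtain ⟨z, hz, hzx, hzy, hzr⟩ := RTS.exists_z (K := K) (k := k) (r := r) (by simpa using hr)
  have he : (-1 : K) ^ (k + 2) = 1 := h.neg_one_pow
  have hJ : ∀ v ∈ VS K (k + 2), v.transpose * JS K (k + 2) = JS K (k + 2) * v := by
    intro v hv
    rw [JS_VS v hv, he, one_smul]
  have D : RRU.Du (VS K (k + 2)) (x0 K k) (y0 K k) (g0 K (k + 2)) :=
    ⟨dat, g0_mem, g0_orth 0 mem_cm, g0_orth 0 mem_am, g0_sq⟩
  have key : ∀ s : K, s * s = 1 → (JS K (k + 2)).transpose = s • JS K (k + 2) →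
      HasEx4 K (2 ^ (k + 2)) 0 r := fun s hss hs =>
    RTU.ex4_du D RRU.pg_spin JS_det' hs hss hJ h1 h2 h3 h4
      (φ := Matrix.entryLinearMap K K (pc k) (qa k))
      (fun v hv w hw a b => RRU.far_zero (by omega) hv hw a b)
      (by
        change N (pc k) (qa k) ≠ 0
        rw [h5]; exact one_ne_zero)
      (by simp) hz hzx hzy hzr
  have h4' : (k + 2) % 4 = 0 ∨ (k + 2) % 4 = 2 := by
    rw [Nat.even_iff] at h
    omega
  rcases h4' with h6 | h6
  · exact key 1 (mul_one 1) (by rw [RRS.JS_t0 (Or.inl h6), one_smul])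
  · exact key (-1) (by ring) (by rw [JS_t (Or.inr h6), neg_one_smul])

end AV
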