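import Mathlib

/-!
Binomial coefficients are not powers of two.
-/

namespace AV.RT

lemma choose_two_le {n k : ℕ} (hk : 2 ≤ k) (hkn : 2 * k ≤ n) : n.choose 2 ≤ n.choose k := by
  induction k, hk using Nat.le_induction with
  | base => exact le_rfl
  | succ k hk ih =>
    exact (ih (by omega)).trans (Nat.choose_le_succ_of_lt_half_left (by omega))

/-- A binomial coefficient `C(n, k)` with `2 ≤ k ≤ n / 2`, `5 ≤ n`, is not a power of two. -/
theorem choose_ne_two_pow {n k a : ℕ} (hn : 5 ≤ n) (hk : 2 ≤ k) (hkn : 2 * k ≤ n) :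
    n.choose k ≠ 2 ^ a := by
  intro h
  have h1 : 2 ^ (n.choose k).factorization 2 ≤ n :=
    Nat.pow_factorization_choose_le (by omega)
  rw [h, Nat.Prime.factorization_pow Nat.prime_two, Finsupp.single_eq_same] at h1
  have h2 := choose_two_le hk hkn
  rw [h] at h2
  have h3 : n < n.choose 2 := by
    rw [Nat.choose_two_right]
    have h4 : n * 4 ≤ n * (n - 1) := Nat.mul_le_mul_left n (by omega)
    omega
  omega

end AV.RT
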