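import Pool.Agent.Helper43.RR.Defs

/-!
Strong Mumford-Tate pairs whose cocharacter is conjugate to its opposite, with places of bad
reduction: exceptional examples.
-/

open Module MTPairs

namespace AV

/-- An exceptional example of sign `e` and dimension `D`, with a place of bad reduction of toric
rank `r`. -/
def HasEx4 (K : Type*) [Field K] (D : ℕ) (e : ℤ) (r : ℕ) : Prop :=
  ∃ (m : Type) (_ : Fintype m) (_ : DecidableEq m) (J : Matrix m m K)
    (G : Subgroup (Matrix.GeneralLinearGroup m K)) (π : Matrix m m K),
    IsStrongMTPair ⊥ J G π ∧ IsReductiveRep G ∧ IsSelfOpposite G π ∧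
    (∀ W, IsIrrSub G W → finrank K W = D ∧ HasSign J G W e ∧ BadAt ⊥ G π W r) ∧
    ¬ ContainsDer J G

end AV
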