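import Pool.Agent.Helper43.RR.Fin
import Pool.Agent.Helper2.AV.Fin
import Pool.Agent.Helper43.RT.Arith
import Pool.Agent.Helper43.RT.Sh

/-!
The group theorem for a rational real reflex field and places of bad reduction.
-/

set_option linter.unusedSimpArgs false
set_option linter.unusedSectionVars false
set_option linter.unusedVariables false

open Module MTPairs

namespace AV.RT

open MTP UN RR

variable {K : Type*} [Field K] [IsAlgClosed K] [CharZero K] {m : Type*} [Fintype m]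
  [DecidableEq m] {Γ : Subgroup (Equiv.Perm (m → K))} {J : Matrix m m K}
  {G : Subgroup (Matrix.GeneralLinearGroup m K)} {π : Matrix m m K} {W : Submodule K (m → K)}

/-- The exceptional triples. -/
def SpinT (D : ℕ) (e : ℤ) (r : ℕ) : Prop :=
  SpinD D e ∧ (r = 0 ∨ 4 * r = D ∨ 2 * r = D)

/-- The toric rank in the exceptional case. -/
theorem rank_of_spin {D : ℕ} {e : ℤ} (h : SpinD D e) {s r : ℕ} (hx : Exc D s r) :
    4 * r = D ∨ 2 * r = D := by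
  obtain ⟨n, hn, hD⟩ : ∃ n, 3 ≤ n ∧ D = 2 ^ n := by
    rcases h with ⟨-, n, h1, -, h2⟩ | ⟨-, n, h1, -, h2⟩ | ⟨-, n, h1, -, h2⟩
    · exact ⟨n, by omega, h2⟩
    · exact ⟨n, h1, h2⟩
    · exact ⟨n, by omega, h2⟩
  rcases hx with ⟨n', k, h1, h2, h3, h4, -, -⟩ | ⟨n', h1, h2, -, h3⟩
  · exact absurd (h4.symm.trans hD) (choose_ne_two_pow h1 h2 h3)
  · obtain ⟨j, rfl⟩ : ∃ j, n' = j + 3 := ⟨n' - 3, by omega⟩
    have e1 : j + 3 - 1 = j + 2 := by omega
    have e2 : j + 3 - 3 = j := by omega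
    have e3 : j + 3 - 2 = j + 1 := by omega
    rw [e1] at h2
    rw [e2, e3] at h3
    rcases h3 with rfl | rfl
    · left
      rw [h2, pow_add]; ring
    · right
      rw [h2, pow_add, pow_add]; ring

/-- **The group theorem.** -/
theorem containsDer (D : IsStrongMTPair Γ J G π) (hr : IsReductiveRep G)
    (hso : IsSelfOpposite G π) {R : Set (ℕ × ℤ × ℕ)}
    (hR : ∀ d e r, (d, e, r) ∈ R → ¬ SpinT d e r)
    (h : ∀ W, IsIrrSub G W → ∃ e r, HasSign J G W e ∧ BadAt Γ G π W r ∧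
      (finrank K W, e, r) ∈ R ∧
      ∃ Γ₁ ≤ Γ, LocAt Γ₁ Γ G π W ∧ (Γ₁ = Γ ∨ (e = -1 ∧ (∀ θ ∈ Γ, ∀ v ∈ W, θ v ∈ W) ∧
        ∀ d k, Odd k → 3 ≤ k → finrank K W = d ^ k → Nat.Coprime k (Γ₁.relIndex Γ)))) :
    ContainsDer J G := by
  rcases isEmpty_or_nonempty m with hm | hm
  · intro g _ _ _
    have : g = 1 := by
      apply Units.ext
      apply Matrix.ext
      intro i
      exact (hm.false i).elim
    rw [this]; exact G.one_mem
  have U := mstr D hr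
  have hso' : SOp (GE G) (Matrix.toLin' π) := sop_of hso
  have hgood : ∀ ε, Bl (AA (GE G) (TE Γ) (Matrix.toLin' π)) ε → ∀ W,
      Irr (AA (GE G) (TE Γ) (Matrix.toLin' π) : Set (Module.End K (m → K))) W → InB ε W →
      Good (fJ J) (GE G) (TE Γ) (Matrix.toLin' π) ε W := by
    intro ε hε W hW hWε
    obtain ⟨e, r, hse, hbad, heR, Γ₁, hΓ₁, hloc, halt⟩ := h W (irr_sub.mp (U.irr_iff.mpr hW))
    have hsmp : Smp (Lb (GE G) (TE Γ) (Matrix.toLin' π) ε) := by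
      rcases halt with rfl | ⟨rfl, hst, hco⟩
      · exact U.smp_loc hε (fun τ hτ => U.ns_so hso' (U.tw_bl hτ hε))
          (locE_of D hr hW hε hWε hloc)
      · exact smp_index D hr hso hW hε hWε hse hst hΓ₁ hloc hco
    obtain ⟨N, hN, hNN, hrk⟩ := exists_full D hr hso hW hε hWε
    have hpq := U.rkW_so hso' hε hW hWε _ U.p0_mem
    rcases U.classify2 hε hW hWε (U.ns_so hso' hε) hsmp hN hNN (by rw [hrk, hpq]) U.p0_mem
      hpq with ⟨e', he', hsp⟩ | hgd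
    · have hee : e = e' := sign_eq D hr hso hW hε hWε hse he'
      rw [← hee] at hsp
      rcases Nat.eq_zero_or_pos r with rfl | hr0
      · exact absurd ⟨hsp, Or.inl rfl⟩ (hR _ _ _ heR)
      · obtain ⟨k, hk, hbE, hrkk⟩ := badE D hr hW hε hWε hr0 hbad
        rcases goe U hε hW hWε hk hr0 hbE hrkk U.p0_mem with hx | hgd
        · exact absurd ⟨hsp, Or.inr (rank_of_spin hsp hx)⟩ (hR _ _ _ heR)
        · exact hgd
    · exact hgd
  refine der_of_good D hr (fun ε hε => ?_) ?_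
  · obtain ⟨W, hW, hWε⟩ := hε.exists_irr
    exact ⟨W, hgood ε hε W hW hWε⟩
  · intro ε₁ ε₂ W₁ W₂ g1 g2 hO hs
    have h1 := U.rkW_so hso' g1.bl g1.irr g1.inb _ U.p0_mem
    rw [hs.1] at h1
    rcases hs.2.2 _ U.p0_mem with h2 | h2 <;> omega

/-- **The exact criterion.** -/
theorem criterion {K : Type*} [Field K] [IsAlgClosed K] [CharZero K] (R : Set (ℕ × ℤ × ℕ)) :
    (∀ (m : Type) [Fintype m] [DecidableEq m] (Γ : Subgroup (Equiv.Perm (m → K)))
      (J : Matrix m m K) (G : Subgroup (Matrix.GeneralLinearGroup m K)) (π : Matrix m m K),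
      IsStrongMTPair Γ J G π → IsReductiveRep G → IsSelfOpposite G π →
      (∀ W, IsIrrSub G W → ∃ e r, HasSign J G W e ∧ BadAt Γ G π W r ∧
        (finrank K W, e, r) ∈ R ∧
        ∃ Γ₁ ≤ Γ, LocAt Γ₁ Γ G π W ∧ (Γ₁ = Γ ∨ (e = -1 ∧ (∀ θ ∈ Γ, ∀ v ∈ W, θ v ∈ W) ∧
          ∀ d k, Odd k → 3 ≤ k → finrank K W = d ^ k → Nat.Coprime k (Γ₁.relIndex Γ)))) →
      ContainsDer J G) ↔
    ∀ n r, r = 0 ∨ r = 2 ^ (n - 2) ∨ r = 2 ^ (n - 1) →
      (5 ≤ n → n % 4 = 1 ∨ n % 4 = 2 → (2 ^ n, -1, r) ∉ R) ∧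
      (3 ≤ n → n % 4 = 0 ∨ n % 4 = 3 → (2 ^ n, 1, r) ∉ R) ∧
      (4 ≤ n → Even n → (2 ^ n, 0, r) ∉ R) := by
  have hloc : ∀ {m : Type} [Fintype m] [DecidableEq m]
      {G : Subgroup (Matrix.GeneralLinearGroup m K)} {π : Matrix m m K}
      (W : Submodule K (m → K)), LocAt ⊥ ⊥ G π W := by
    intro m _ _ G π W γ hγ E
    rw [Subgroup.mem_bot] at hγ
    subst hγ
    refine ⟨1, Subgroup.one_mem _, fun v _ => rfl, π, ⟨1, Subgroup.one_mem _, 1, G.one_mem,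
      fun v => ?_⟩, Or.inl ⟨1, G.one_mem, fun v => ?_⟩⟩
    · rw [Units.val_one, Matrix.one_mulVec, Matrix.one_mulVec]
      rfl
    · rw [Units.val_one, Matrix.one_mulVec, Matrix.one_mulVec]
      rfl
  have hex : ∀ {d : ℕ} {e : ℤ} {r : ℕ}, HasEx4 K d e r → (d, e, r) ∈ R →
      (∀ (m : Type) [Fintype m] [DecidableEq m] (Γ : Subgroup (Equiv.Perm (m → K)))
      (J : Matrix m m K) (G : Subgroup (Matrix.GeneralLinearGroup m K)) (π : Matrix m m K),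
      IsStrongMTPair Γ J G π → IsReductiveRep G → IsSelfOpposite G π →
      (∀ W, IsIrrSub G W → ∃ e r, HasSign J G W e ∧ BadAt Γ G π W r ∧
        (finrank K W, e, r) ∈ R ∧
        ∃ Γ₁ ≤ Γ, LocAt Γ₁ Γ G π W ∧ (Γ₁ = Γ ∨ (e = -1 ∧ (∀ θ ∈ Γ, ∀ v ∈ W, θ v ∈ W) ∧
          ∀ d k, Odd k → 3 ≤ k → finrank K W = d ^ k → Nat.Coprime k (Γ₁.relIndex Γ)))) →
      ContainsDer J G) → False := by
    rintro d e r ⟨m, _, _, J, G, π, h1, h2, h3, h4, h5⟩ hmem h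
    apply h5
    apply h m ⊥ J G π h1 h2 h3
    intro W hW
    obtain ⟨h6, h7, h8⟩ := h4 W hW
    exact ⟨e, r, h7, h8, by rw [h6]; exact hmem, ⊥, le_rfl, hloc W, Or.inl rfl⟩
  constructor
  · intro h n r hr
    exact ⟨fun hn hc hmem => hex (ex4_S K hn hc hr) hmem h,
      fun hn hc hmem => hex (ex4_O K hn hc hr) hmem h,
      fun hn hc hmem => hex (ex4_U K hn hc hr) hmem h⟩
  · intro hall m _ _ Γ J G π D hr hso h
    refine containsDer D hr hso ?_ h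
    rintro d e r hmem ⟨hsp, hr'⟩
    have key : ∀ n, 3 ≤ n → d = 2 ^ n → r = 0 ∨ r = 2 ^ (n - 2) ∨ r = 2 ^ (n - 1) := by
      intro n hn hd
      obtain ⟨j, rfl⟩ : ∃ j, n = j + 2 := ⟨n - 2, by omega⟩
      have e1 : j + 2 - 2 = j := by omega
      have e2 : j + 2 - 1 = j + 1 := by omega
      have e3 : (2 : ℕ) ^ (j + 2) = 4 * 2 ^ j := by ring
      have e4 : (2 : ℕ) ^ (j + 1) = 2 * 2 ^ j := by ring
      rw [e1, e2, e4]
      rw [e3] at hd
      omega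
    rcases hsp with ⟨rfl, n, a1, a2, rfl⟩ | ⟨rfl, n, a1, a2, rfl⟩ | ⟨rfl, n, a1, a2, rfl⟩
    · exact (hall n r (key n (by omega) rfl)).1 a1 a2 hmem
    · exact (hall n r (key n a1 rfl)).2.1 a1 a2 hmem
    · exact (hall n r (key n (by omega) rfl)).2.2 a1 a2 hmem

end AV.RT
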